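import Pool.Agent.H53.Lib.R_seed8.W352.ChAbs.Cnt

/-! Chebotarev's theorem for the absolute Galois group of a number field, from the statement for
Galois extensions of `ℚ`. -/

set_option autoImplicit false
set_option linter.all false

namespace Pool.Agent.W352.ChAbs

open NumberField Filter Topology IsDedekindDomain
open Pool.Agent.W401.Cheb

section ratio

theorem ncard_preimage {A B : Type} [Group A] [Group B] [Finite A] (f : A →* B)
    (hf : Function.Surjective f) (S : Set B) :
    (f ⁻¹' S).ncard = Nat.card f.ker * S.ncard := by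
  have hB : Finite B := Finite.of_surjective f hf
  choose s hs using hf
  have e : (S × f.ker) ≃ (f ⁻¹' S) := by
    refine Equiv.ofBijective (fun z => ⟨s z.1 * z.2.1, ?_⟩) ⟨?_, ?_⟩
    · rw [Set.mem_preimage, map_mul, hs, MonoidHom.mem_ker.mp z.2.2, mul_one]
      exact z.1.2
    · rintro ⟨b, k⟩ ⟨b', k'⟩ h
      have h1 : s b * k.1 = s b' * k'.1 := congrArg Subtype.val h
      have h2 := congrArg f h1
      rw [map_mul, map_mul, hs, hs, MonoidHom.mem_ker.mp k.2, MonoidHom.mem_ker.mp k'.2, mul_one,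
        mul_one] at h2
      have h3 : b = b' := Subtype.ext h2
      subst h3
      have h4 : k = k' := Subtype.ext (mul_left_cancel h1)
      rw [h4]
    · rintro ⟨a, ha⟩
      refine ⟨⟨⟨f a, ha⟩, ⟨(s (f a))⁻¹ * a, ?_⟩⟩, ?_⟩
      · rw [MonoidHom.mem_ker, map_mul, map_inv, hs, inv_mul_cancel]
      · apply Subtype.ext
        simp
  have h1 := Nat.card_congr e
  rw [Nat.card_prod] at h1
  change Nat.card S * Nat.card f.ker = (f ⁻¹' S).ncard at h1
  rw [← h1, mul_comm]
  rfl

theorem ratio {G G' : Type} [Group G] [Group G'] [Finite G'] (U : Subgroup G) [U.Normal]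
    (r : G →* G') (hU : r.ker ≤ U) (C : Set G) (hCU : ∀ σ ∈ C, ∀ u ∈ U, σ * u ∈ C) :
    (((QuotientGroup.mk : G → G ⧸ U) '' C).ncard : ℝ) / (Nat.card (G ⧸ U) : ℝ) =
      ((r '' C).ncard : ℝ) / (Nat.card r.range : ℝ) := by
  let f : r.range →* G ⧸ U := (QuotientGroup.map r.ker U (MonoidHom.id G) hU).comp
    (QuotientGroup.quotientKerEquivRange r).symm.toMonoidHom
  have hfr : ∀ g : G, f ⟨r g, g, rfl⟩ = QuotientGroup.mk g := by
    intro g
    have h1 : (QuotientGroup.quotientKerEquivRange r).symm ⟨r g, g, rfl⟩ = QuotientGroup.mk g := by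
      rw [MulEquiv.symm_apply_eq]
      rfl
    change (QuotientGroup.map r.ker U (MonoidHom.id G) hU)
      ((QuotientGroup.quotientKerEquivRange r).symm ⟨r g, g, rfl⟩) = _
    rw [h1]
    rfl
  have hfs : Function.Surjective f := by
    intro x
    obtain ⟨g, rfl⟩ := QuotientGroup.mk_surjective x
    exact ⟨_, hfr g⟩
  have h1 := ncard_preimage f hfs ((QuotientGroup.mk : G → G ⧸ U) '' C)
  have h2 := ncard_preimage f hfs Set.univ
  rw [Set.preimage_univ, Set.ncard_univ, Set.ncard_univ] at h2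
  have h3 : (f ⁻¹' ((QuotientGroup.mk : G → G ⧸ U) '' C)).ncard = (r '' C).ncard := by
    rw [← Set.ncard_image_of_injective _ Subtype.val_injective]
    congr 1
    ext x
    constructor
    · rintro ⟨⟨y, g, rfl⟩, ⟨c, hc, hc'⟩, rfl⟩
      rw [hfr] at hc'
      refine ⟨g, ?_, rfl⟩
      have := hCU c hc _ (QuotientGroup.eq.mp hc')
      rwa [mul_inv_cancel_left] at this
    · rintro ⟨c, hc, rfl⟩
      exact ⟨⟨r c, c, rfl⟩, ⟨c, hc, (hfr c).symm⟩, rfl⟩
  rw [h3] at h1
  have hk : (Nat.card f.ker : ℝ) ≠ 0 := by exact_mod_cast Nat.card_pos.ne'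
  rw [h1, h2]
  push_cast
  rw [mul_div_mul_left _ _ hk]

end ratio

section choice

variable {K : Type} [Field K] [NumberField K]

theorem exists_L (U : Subgroup (GK K)) (hU : IsOpen (U : Set (GK K))) :
    ∃ L : IntermediateField ℚ (AlgebraicClosure K), FiniteDimensional ℚ L ∧ Normal ℚ L ∧
      (∀ x : K, algebraMap K (AlgebraicClosure K) x ∈ L) ∧
      ∀ σ : GK K, (∀ x ∈ L, σ x = x) → σ ∈ U := by
  have h1 : (U : Set (GK K)) ∈ 𝓝 1 := hU.mem_nhds U.one_mem
  rw [krullTopology_mem_nhds_one_iff] at h1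
  obtain ⟨E, hE, hEU⟩ := h1
  haveI : FiniteDimensional ℚ E := FiniteDimensional.trans ℚ K E
  let E' : IntermediateField ℚ (AlgebraicClosure K) := E.restrictScalars ℚ
  haveI : FiniteDimensional ℚ E' := this
  haveI : Algebra.IsAlgebraic ℚ (AlgebraicClosure K) := Algebra.IsAlgebraic.trans ℚ K _
  haveI : IsAlgClosure ℚ (AlgebraicClosure K) := ⟨inferInstance, inferInstance⟩
  haveI : Normal ℚ (AlgebraicClosure K) := IsAlgClosure.normal ℚ _
  have hle : E' ≤ IntermediateField.normalClosure ℚ E' (AlgebraicClosure K) :=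
    E'.le_normalClosure
  refine ⟨IntermediateField.normalClosure ℚ E' (AlgebraicClosure K), ?_, ?_, ?_, ?_⟩
  · infer_instance
  · have h := normalClosure.normal ℚ E' (AlgebraicClosure K)
    convert h
    exact Subsingleton.elim _ _
  · intro x
    exact hle (E.algebraMap_mem x)
  · intro σ hσ
    apply hEU
    rw [SetLike.mem_coe, IntermediateField.mem_fixingSubgroup_iff]
    intro x hx
    exact hσ x (hle hx)

end choice

theorem core (hCheb : Chebotarev) (hTor : TaskTor) (K : Type) [Field K] [NumberField K] (L : Type)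
    [Field L] [NumberField L] [IsGalois ℚ L]
    [Algebra K L] [Algebra L (AlgebraicClosure K)] [IsScalarTower K L (AlgebraicClosure K)]
    (U : Subgroup (GK K)) [U.Normal] (hUL : ∀ σ : GK K,
      (∀ x : L, σ (algebraMap L (AlgebraicClosure K) x) = algebraMap L (AlgebraicClosure K) x) → σ ∈ U)
    (C : Set (GK K)) (hC : ∀ σ ∈ C, ∀ τ : GK K, τ * σ * τ⁻¹ ∈ C)
    (hCU : ∀ σ ∈ C, ∀ u ∈ U, σ * u ∈ C) :
    Tendsto (dens fun v : HeightOneSpectrum (𝓞 K) => ∃ σ ∈ C, IsFrob v σ) atTop
    (𝓝 ((((QuotientGroup.mk : GK K → GK K ⧸ U) '' C).ncard : ℝ) / (Nat.card (GK K ⧸ U) : ℝ))) := by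
  classical
  have hU : (res K L).ker ≤ U := by
    intro σ hσ
    apply hUL
    intro x
    rw [← res_apply, MonoidHom.mem_ker.mp hσ]
    rfl
  obtain ⟨D, hD, hT⟩ := hTor L
  rw [ratio U (res K L) hU C hCU]
  have key := limit (K := K) (L := L) (fun v => ∃ σ ∈ C, IsFrob v σ)
    (Set.toFinite ((res K L) '' C)).toFinset (Nat.card (res K L).range) D Nat.card_pos hD
    (fun g => hCheb L g) (by
      intro p hp hpD
      haveI : Fact p.Prime := ⟨hp⟩
      obtain ⟨h1, h2, -⟩ := hT p hpD
      exact count_main (p := p) U C hU hC hCU h2 h1)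
  rw [Set.ncard_eq_toFinset_card _ (Set.toFinite ((res K L) '' C))]
  exact key

/-- **CH-ABS** -/
theorem main : Pool.Agent.W401.Cheb.TaskAbs := by
  intro hCheb hTor K _ _ U _ hUo C hC hCU
  obtain ⟨L, hfd, hnor, hK, hL⟩ := exists_L U hUo
  haveI : NumberField L := { to_charZero := inferInstance, to_finiteDimensional := by
                              convert hfd }
  haveI : IsGalois ℚ L := by
    haveI := hnor
    exact { }
  letI : Algebra K L := (RingHom.codRestrict (algebraMap K (AlgebraicClosure K)) L.toSubring hK).toAlgebra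
  haveI : IsScalarTower K L (AlgebraicClosure K) := IsScalarTower.of_algebraMap_eq (fun x => rfl)
  refine core hCheb hTor K L U ?_ C hC hCU
  intro σ hσ
  apply hL
  intro x hx
  exact hσ ⟨x, hx⟩

end Pool.Agent.W352.ChAbs
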